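import Mathlib

/-!
# A concise cubic in nine variables with at least ten minimal cubic apolar generators

The cubic is `T = y₀ a₀² + y₁ a₁² + y₂ a₂² + y₃ a₀ a₁ + y₄ a₀ a₂ + y₅ a₁ a₂`.
No quadric in the apolar ideal contains a product of two of the variables dual to `a₀, a₁, a₂`,
whereas all ten cubic monomials in these three variables kill `T`.
-/

set_option autoImplicit false

namespace Pool.Agent.Results.MP_1eaf4f_ag.NineVars

open MvPolynomial Finsupp Module

variable {m : ℕ}

/-- The partial derivative with respect to the `i`-th variable, as a linear endomorphism of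
`ℂ[X_1, …, X_m]`. -/
noncomputable def D (i : Fin m) : Module.End ℂ (MvPolynomial (Fin m) ℂ) :=
  (pderiv (R := ℂ) i).toLinearMap

theorem D_apply (i : Fin m) (F : MvPolynomial (Fin m) ℂ) : D i F = pderiv i F := rfl

theorem D_comm (i j : Fin m) : Commute (D i) (D j) := by
  apply LinearMap.ext
  intro F
  rw [Module.End.mul_apply, Module.End.mul_apply]
  simp only [D_apply]
  ext e
  rw [coeff_pderiv, coeff_pderiv, coeff_pderiv, coeff_pderiv]
  rcases eq_or_ne i j with rfl | hij
  · rfl
  · have h1 : (e + single i 1 : Fin m →₀ ℕ) j = e j := by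
      rw [Finsupp.add_apply, Finsupp.single_eq_of_ne (Ne.symm hij), add_zero]
    have h2 : (e + single j 1 : Fin m →₀ ℕ) i = e i := by
      rw [Finsupp.add_apply, Finsupp.single_eq_of_ne hij, add_zero]
    have h3 : e + single i 1 + single j 1 = e + single j 1 + single i 1 := by abel
    rw [h1, h2, h3]
    ring

theorem D_pairwise (d : Fin m →₀ ℕ) :
    ((Finset.univ : Finset (Fin m)) : Set (Fin m)).Pairwise
      (Function.onFun Commute fun i => D i ^ d i) :=
  fun i _ j _ _ => (D_comm i j).pow_pow _ _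

/-- The differential operator `∂_1 ^ d_1 ⋯ ∂_m ^ d_m` attached to the exponent `d`. -/
noncomputable def dmon (d : Fin m →₀ ℕ) : Module.End ℂ (MvPolynomial (Fin m) ℂ) :=
  Finset.univ.noncommProd (fun i => D i ^ d i) (D_pairwise d)

/-- The apolarity action: the polynomial `f` acts on `ℂ[X_1, …, X_m]` as the constant coefficient
differential operator `f (∂_1, …, ∂_m)`. -/
noncomputable def act : MvPolynomial (Fin m) ℂ →ₗ[ℂ] Module.End ℂ (MvPolynomial (Fin m) ℂ) :=
  (basisMonomials (Fin m) ℂ).constr ℂ dmon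

/-- The apolar ideal `Ann(T)`: all polynomials `f` whose action kills `T`. -/
noncomputable def Ann (T : MvPolynomial (Fin m) ℂ) : Submodule ℂ (MvPolynomial (Fin m) ℂ) :=
  LinearMap.ker (act.flip T)

/-- The degree `k` part of the apolar ideal. -/
noncomputable def AnnDeg (T : MvPolynomial (Fin m) ℂ) (k : ℕ) :
    Submodule ℂ (MvPolynomial (Fin m) ℂ) :=
  Ann T ⊓ homogeneousSubmodule (Fin m) ℂ k

/-- The number of minimal cubic generators of the apolar ideal:
`dim Ann(T)_3 - dim (S_1 · Ann(T)_2)`. -/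
noncomputable def cubicGens (T : MvPolynomial (Fin m) ℂ) : ℕ :=
  finrank ℂ (AnnDeg T 3) -
    finrank ℂ (homogeneousSubmodule (Fin m) ℂ 1 * AnnDeg T 2 :
      Submodule ℂ (MvPolynomial (Fin m) ℂ))

theorem coeff_D_pow (i : Fin m) (n : ℕ) (T : MvPolynomial (Fin m) ℂ) (e : Fin m →₀ ℕ) :
    coeff e ((D i ^ n) T) = coeff (e + single i n) T * ((e i + n).descFactorial n : ℂ) := by
  induction n generalizing e with
  | zero => simp
  | succ n ih =>
    rw [pow_succ', Module.End.mul_apply, D_apply, coeff_pderiv, ih]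
    have h1 : e + single i 1 + single i n = e + single i (n + 1) := by
      rw [add_assoc, ← Finsupp.single_add, add_comm 1 n]
    have h2 : (e + single i 1 : Fin m →₀ ℕ) i + n = e i + (n + 1) := by
      rw [Finsupp.add_apply, Finsupp.single_eq_same]; ring
    rw [h1, h2, Nat.descFactorial_succ]
    have h3 : e i + (n + 1) - n = e i + 1 := by omega
    rw [h3]
    push_cast
    ring

theorem coeff_prod (s : Finset (Fin m)) (d : Fin m →₀ ℕ) (comm)
    (T : MvPolynomial (Fin m) ℂ) (e : Fin m →₀ ℕ) :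
    coeff e ((s.noncommProd (fun i => D i ^ d i) comm) T) =
      coeff (e + ∑ i ∈ s, single i (d i)) T *
        ∏ i ∈ s, ((e i + d i).descFactorial (d i) : ℂ) := by
  classical
  induction s using Finset.induction_on generalizing e with
  | empty => simp
  | insert a s ha ih =>
    rw [Finset.noncommProd_insert_of_notMem _ _ _ _ ha, Module.End.mul_apply, coeff_D_pow, ih,
      Finset.sum_insert ha, Finset.prod_insert ha, add_assoc]
    have h1 : ∏ i ∈ s, (((e + single a (d a)) i + d i).descFactorial (d i) : ℂ) =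
        ∏ i ∈ s, ((e i + d i).descFactorial (d i) : ℂ) := by
      refine Finset.prod_congr rfl fun i hi => ?_
      have : i ≠ a := fun h => ha (h ▸ hi)
      rw [Finsupp.add_apply, Finsupp.single_eq_of_ne this, add_zero]
    rw [h1]
    ring

/-- product of the factorials of the exponents -/
def wt (c : Fin m →₀ ℕ) : ℂ := ∏ i, ((c i).factorial : ℂ)

theorem wt_ne (c : Fin m →₀ ℕ) : wt c ≠ 0 :=
  Finset.prod_ne_zero_iff.2 fun i _ => Nat.cast_ne_zero.2 (Nat.factorial_ne_zero _)

theorem coeff_dmon (d : Fin m →₀ ℕ) (T : MvPolynomial (Fin m) ℂ) (e : Fin m →₀ ℕ) :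
    wt e * coeff e (dmon d T) = coeff (e + d) T * wt (e + d) := by
  unfold dmon
  rw [coeff_prod]
  have h1 : ∑ i, single i (d i) = d := Finsupp.univ_sum_single d
  rw [h1]
  have h2 : wt (e + d) = wt e * ∏ i, ((e i + d i).descFactorial (d i) : ℂ) := by
    unfold wt
    rw [← Finset.prod_mul_distrib]
    refine Finset.prod_congr rfl fun i _ => ?_
    have := Nat.factorial_mul_descFactorial (Nat.le_add_left (d i) (e i))
    rw [Nat.add_sub_cancel] at this
    rw [Finsupp.add_apply, ← this]
    push_cast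
    ring
  rw [h2]
  ring

/-- the functional `f ↦ ∑ f_d t_{e+d}` where `t_c = c! T_c` -/
noncomputable def lin (T : MvPolynomial (Fin m) ℂ) (e : Fin m →₀ ℕ) :
    MvPolynomial (Fin m) ℂ →ₗ[ℂ] ℂ :=
  (basisMonomials (Fin m) ℂ).constr ℂ fun d => coeff (e + d) T * wt (e + d)

theorem basis_eq (d : Fin m →₀ ℕ) : (basisMonomials (Fin m) ℂ) d = monomial d 1 := by
  rw [coe_basisMonomials]

theorem lin_monomial (T : MvPolynomial (Fin m) ℂ) (e d : Fin m →₀ ℕ) (a : ℂ) :
    lin T e (monomial d a) = a * (coeff (e + d) T * wt (e + d)) := by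
  have h1 : (monomial d a : MvPolynomial (Fin m) ℂ) = a • (basisMonomials (Fin m) ℂ) d := by
    rw [basis_eq, smul_monomial, smul_eq_mul, mul_one]
  rw [h1, map_smul, lin, Basis.constr_basis, smul_eq_mul]

theorem act_monomial (d : Fin m →₀ ℕ) (a : ℂ) : act (monomial d a) = a • dmon d := by
  have h1 : (monomial d a : MvPolynomial (Fin m) ℂ) = a • (basisMonomials (Fin m) ℂ) d := by
    rw [basis_eq, smul_monomial, smul_eq_mul, mul_one]
  rw [h1, map_smul, act, Basis.constr_basis]

theorem coeff_act (f T : MvPolynomial (Fin m) ℂ) (e : Fin m →₀ ℕ) :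
    wt e * coeff e (act f T) = lin T e f := by
  induction f using MvPolynomial.induction_on' with
  | monomial d a =>
    rw [act_monomial, lin_monomial, LinearMap.smul_apply, coeff_smul, ← coeff_dmon, smul_eq_mul]
    ring
  | add p q hp hq =>
    rw [map_add, LinearMap.add_apply, coeff_add, mul_add, hp, hq, map_add]

theorem mem_Ann {f T : MvPolynomial (Fin m) ℂ} : f ∈ Ann T ↔ ∀ e, lin T e f = 0 := by
  unfold Ann
  rw [LinearMap.mem_ker, LinearMap.flip_apply]
  constructor
  · intro h e
    rw [← coeff_act, h, coeff_zero, mul_zero]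
  · intro h
    ext e
    have := h e
    rw [← coeff_act] at this
    rw [coeff_zero]
    exact (mul_eq_zero.1 this).resolve_left (wt_ne e)

theorem lin_X_mul (T f : MvPolynomial (Fin m) ℂ) (i : Fin m) (e : Fin m →₀ ℕ) :
    lin T e (X i * f) = lin T (e + single i 1) f := by
  induction f using MvPolynomial.induction_on' with
  | monomial d a =>
    have h1 : (X i * monomial d a : MvPolynomial (Fin m) ℂ) = monomial (single i 1 + d) a := by
      rw [X, monomial_mul, one_mul]
    rw [h1, lin_monomial, lin_monomial, add_assoc]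
  | add p q hp hq => rw [mul_add, map_add, map_add, hp, hq]

theorem X_mul_mem {T f : MvPolynomial (Fin m) ℂ} (hf : f ∈ Ann T) (i : Fin m) :
    X i * f ∈ Ann T := by
  rw [mem_Ann] at hf ⊢
  intro e
  rw [lin_X_mul, hf]

theorem linear_mul_mem {T f l : MvPolynomial (Fin m) ℂ} (hf : f ∈ Ann T)
    (hl : l ∈ homogeneousSubmodule (Fin m) ℂ 1) : l * f ∈ Ann T := by
  rw [homogeneousSubmodule_one_eq_span_X] at hl
  induction hl using Submodule.span_induction with
  | mem x hx =>
    obtain ⟨i, rfl⟩ := hx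
    exact X_mul_mem hf i
  | zero => rw [zero_mul]; exact Submodule.zero_mem _
  | add x y _ _ hx hy => rw [add_mul]; exact Submodule.add_mem _ hx hy
  | smul a x _ hx => rw [smul_mul_assoc]; exact Submodule.smul_mem _ a hx

theorem mul_le (T : MvPolynomial (Fin m) ℂ) :
    homogeneousSubmodule (Fin m) ℂ 1 * AnnDeg T 2 ≤ AnnDeg T 3 := by
  rw [Submodule.mul_le]
  intro l hl f hf
  refine ⟨linear_mul_mem hf.1 hl, ?_⟩
  have h1 : l.IsHomogeneous 1 := hl
  have h2 : f.IsHomogeneous 2 := hf.2
  have h3 : (l * f).IsHomogeneous (1 + 2) := h1.mul h2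
  exact h3

/-! ### The cubic -/

/-- exponents of the six quadratic monomials in the first three variables -/
noncomputable def p : Fin 6 → (Fin 9 →₀ ℕ) :=
  ![single 0 2, single 1 2, single 2 2, single 0 1 + single 1 1, single 0 1 + single 2 1,
    single 1 1 + single 2 1]

/-- the last six variables -/
def y : Fin 6 → Fin 9 := ![3, 4, 5, 6, 7, 8]

/-- `T = X₃ X₀² + X₄ X₁² + X₅ X₂² + X₆ X₀ X₁ + X₇ X₀ X₂ + X₈ X₁ X₂` -/
noncomputable def T₀ : MvPolynomial (Fin 9) ℂ :=
  X 3 * X 0 ^ 2 + X 4 * X 1 ^ 2 + X 5 * X 2 ^ 2 + X 6 * X 0 * X 1 + X 7 * X 0 * X 2 +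
    X 8 * X 1 * X 2

theorem T₀_eq : T₀ = ∑ s : Fin 6, monomial (single (y s) 1 + p s) (1 : ℂ) := by
  simp only [Fin.sum_univ_succ, Fin.sum_univ_zero]
  simp [T₀, y, p, X, monomial_pow, monomial_mul, add_assoc]

theorem p_big (s : Fin 6) (i : Fin 9) (hi : 3 ≤ i) : p s i = 0 := by
  have h : ∀ j : Fin 9, j < 3 → ∀ n, (single j n : Fin 9 →₀ ℕ) i = 0 := fun j hj n =>
    Finsupp.single_eq_of_ne (ne_of_gt (lt_of_lt_of_le hj hi))
  fin_cases s <;> simp [p, h]

theorem y_big (s : Fin 6) : 3 ≤ y s := by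
  fin_cases s <;> decide

theorem y_inj : Function.Injective y := by decide

theorem big_eq_y (i : Fin 9) (hi : 3 ≤ i) : ∃ s, i = y s := by
  revert i; decide

theorem p_sum (s : Fin 6) : p s 0 + p s 1 + p s 2 = 2 := by
  fin_cases s <;> simp [p]

theorem p_inj : Function.Injective p := by
  intro s t h
  have h0 := DFunLike.congr_fun h 0
  have h1 := DFunLike.congr_fun h 1
  have h2 := DFunLike.congr_fun h 2
  fin_cases s <;> fin_cases t <;> first | rfl | (exfalso; simp [p] at h0 h1 h2)

theorem coeff_T₀ (c : Fin 9 →₀ ℕ) :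
    coeff c T₀ = ∑ s : Fin 6, if single (y s) 1 + p s = c then (1 : ℂ) else 0 := by
  rw [T₀_eq, coeff_sum]
  refine Finset.sum_congr rfl fun s _ => ?_
  rw [coeff_monomial]

theorem exists_of_coeff_ne {c : Fin 9 →₀ ℕ} (h : coeff c T₀ ≠ 0) :
    ∃ s, single (y s) 1 + p s = c := by
  by_contra hc
  push Not at hc
  apply h
  rw [coeff_T₀]
  exact Finset.sum_eq_zero fun s _ => if_neg (hc s)

theorem coeff_T₀_y (s : Fin 6) (d : Fin 9 →₀ ℕ) :
    coeff (single (y s) 1 + d) T₀ = if d = p s then (1 : ℂ) else 0 := by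
  rw [coeff_T₀, Finset.sum_eq_single s]
  · by_cases h : d = p s
    · rw [if_pos h, if_pos (by rw [h])]
    · rw [if_neg h, if_neg (fun h' => h (add_left_cancel h').symm)]
  · intro t _ ht
    rw [if_neg]
    intro h
    have := DFunLike.congr_fun h (y s)
    rw [Finsupp.add_apply, Finsupp.add_apply, p_big _ _ (y_big s), Finsupp.single_eq_same,
      Finsupp.single_eq_of_ne (fun h' => ht (y_inj h').symm)] at this
    omega
  · intro h
    exact absurd (Finset.mem_univ s) h

theorem lin_y (s : Fin 6) (f : MvPolynomial (Fin 9) ℂ) :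
    lin T₀ (single (y s) 1) f = coeff (p s) f * wt (single (y s) 1 + p s) := by
  induction f using MvPolynomial.induction_on' with
  | monomial d a =>
    rw [lin_monomial, coeff_T₀_y, coeff_monomial]
    by_cases h : d = p s
    · rw [if_pos h, if_pos h, h, one_mul]
    · rw [if_neg h, if_neg h]; ring
  | add p q hp hq => rw [map_add, hp, hq, coeff_add, add_mul]

/-- the ideal generated by the last six variables -/
noncomputable def J : Ideal (MvPolynomial (Fin 9) ℂ) :=
  Ideal.span (X '' {i : Fin 9 | 3 ≤ i})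

theorem AnnDeg_two_le {f : MvPolynomial (Fin 9) ℂ} (hf : f ∈ AnnDeg T₀ 2) : f ∈ J := by
  rw [J, mem_ideal_span_X_image]
  intro c hc
  by_contra hcon
  push Not at hcon
  have hc0 : ∀ i : Fin 9, 3 ≤ i → c i = 0 := hcon
  have hh : f.IsHomogeneous 2 := hf.2
  have hdeg : c.degree = 2 := by
    have := hh (MvPolynomial.mem_support_iff.1 hc)
    rw [Finsupp.degree_eq_weight_one]
    exact this
  have hsum : c 0 + c 1 + c 2 = 2 := by
    rw [Finsupp.degree_eq_sum] at hdeg
    simp only [Fin.sum_univ_succ, Fin.sum_univ_zero] at hdeg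
    have h3 := hc0 3 (by decide)
    have h4 := hc0 4 (by decide)
    have h5 := hc0 5 (by decide)
    have h6 := hc0 6 (by decide)
    have h7 := hc0 7 (by decide)
    have h8 := hc0 8 (by decide)
    simp at hdeg
    simp [h3, h4, h5, h6, h7, h8] at hdeg
    omega
  obtain ⟨s, hs⟩ : ∃ s, c = p s := by
    have key : ∀ s, c 0 = p s 0 → c 1 = p s 1 → c 2 = p s 2 → c = p s := by
      intro s h0 h1 h2
      ext i
      by_cases hi : 3 ≤ i
      · rw [hc0 i hi, p_big s i hi]
      · have : i = 0 ∨ i = 1 ∨ i = 2 := by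
          revert i; decide
        rcases this with rfl | rfl | rfl
        · exact h0
        · exact h1
        · exact h2
    have e0 : c 0 ≤ 2 := by omega
    have e1 : c 1 ≤ 2 := by omega
    have e2 : c 2 = 2 - c 0 - c 1 := by omega
    by_cases a0 : c 0 = 2
    · exact ⟨0, key 0 (by simp [p]; omega) (by simp [p]; omega) (by simp [p]; omega)⟩
    by_cases a1 : c 1 = 2
    · exact ⟨1, key 1 (by simp [p]; omega) (by simp [p]; omega) (by simp [p]; omega)⟩
    by_cases a2 : c 2 = 2
    · exact ⟨2, key 2 (by simp [p]; omega) (by simp [p]; omega) (by simp [p]; omega)⟩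
    by_cases b2 : c 2 = 0
    · exact ⟨3, key 3 (by simp [p]; omega) (by simp [p]; omega) (by simp [p]; omega)⟩
    by_cases b1 : c 1 = 0
    · exact ⟨4, key 4 (by simp [p]; omega) (by simp [p]; omega) (by simp [p]; omega)⟩
    · exact ⟨5, key 5 (by simp [p]; omega) (by simp [p]; omega) (by simp [p]; omega)⟩
  have h1 := (mem_Ann.1 hf.1) (single (y s) 1)
  rw [lin_y, ← hs] at h1
  rcases mul_eq_zero.1 h1 with h2 | h2
  · exact (MvPolynomial.mem_support_iff.1 hc) h2
  · exact wt_ne _ h2

theorem mul_le_J : homogeneousSubmodule (Fin 9) ℂ 1 * AnnDeg T₀ 2 ≤ J.restrictScalars ℂ := by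
  rw [Submodule.mul_le]
  intro l _ f hf
  exact J.mul_mem_left l (AnnDeg_two_le hf)

/-- exponents of the ten cubic monomials in the first three variables -/
noncomputable def c₃ (k : Fin 10) : Fin 9 →₀ ℕ :=
  single 0 ((![3, 0, 0, 2, 2, 0, 0, 1, 1, 1] : Fin 10 → ℕ) k) +
    single 1 ((![0, 3, 0, 1, 0, 2, 1, 2, 0, 1] : Fin 10 → ℕ) k) +
    single 2 ((![0, 0, 3, 0, 1, 1, 2, 0, 2, 1] : Fin 10 → ℕ) k)

theorem c₃_zero (k : Fin 10) : c₃ k 0 = (![3, 0, 0, 2, 2, 0, 0, 1, 1, 1] : Fin 10 → ℕ) k := by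
  simp [c₃]

theorem c₃_one (k : Fin 10) : c₃ k 1 = (![0, 3, 0, 1, 0, 2, 1, 2, 0, 1] : Fin 10 → ℕ) k := by
  simp [c₃]

theorem c₃_two (k : Fin 10) : c₃ k 2 = (![0, 0, 3, 0, 1, 1, 2, 0, 2, 1] : Fin 10 → ℕ) k := by
  simp [c₃]

theorem c₃_big (k : Fin 10) (i : Fin 9) (hi : 3 ≤ i) : c₃ k i = 0 := by
  have h : ∀ j : Fin 9, j < 3 → ∀ n, (single j n : Fin 9 →₀ ℕ) i = 0 := fun j hj n =>
    Finsupp.single_eq_of_ne (ne_of_gt (lt_of_lt_of_le hj hi))
  simp [c₃, h]

theorem c₃_inj : Function.Injective c₃ := by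
  intro k l h
  have h0 := DFunLike.congr_fun h 0
  have h1 := DFunLike.congr_fun h 1
  rw [c₃_zero, c₃_zero] at h0
  rw [c₃_one, c₃_one] at h1
  clear h
  revert k l; decide

theorem c₃_sum (k : Fin 10) : c₃ k 0 + c₃ k 1 + c₃ k 2 = 3 := by
  rw [c₃_zero, c₃_one, c₃_two]
  revert k; decide

theorem c₃_degree (k : Fin 10) : (c₃ k).degree = 3 := by
  unfold c₃
  rw [map_add, map_add, Finsupp.degree_single, Finsupp.degree_single, Finsupp.degree_single]
  revert k; decide

/-- the span of the ten cubic monomials -/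
noncomputable def W : Submodule ℂ (MvPolynomial (Fin 9) ℂ) :=
  Submodule.span ℂ (Set.range fun k : Fin 10 => monomial (c₃ k) (1 : ℂ))

theorem finrank_W : finrank ℂ W = 10 := by
  have h1 : LinearIndependent ℂ (fun k : Fin 10 => (monomial (c₃ k) (1 : ℂ))) := by
    have h0 := (basisMonomials (Fin 9) ℂ).linearIndependent.comp c₃ c₃_inj
    have h2 : (basisMonomials (Fin 9) ℂ) ∘ c₃ =
        fun k : Fin 10 => (monomial (c₃ k) (1 : ℂ)) := by
      funext k
      rw [Function.comp_apply, basis_eq]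
    rw [h2] at h0
    exact h0
  have h2 := finrank_span_eq_card h1
  rw [Fintype.card_fin] at h2
  exact h2

theorem W_le : W ≤ AnnDeg T₀ 3 := by
  unfold W
  rw [Submodule.span_le]
  rintro _ ⟨k, rfl⟩
  refine ⟨?_, ?_⟩
  · change _ ∈ Ann T₀
    rw [mem_Ann]
    intro e
    rw [lin_monomial]
    have : coeff (e + c₃ k) T₀ = 0 := by
      by_contra hne
      obtain ⟨s, hs⟩ := exists_of_coeff_ne hne
      have h0 := DFunLike.congr_fun hs 0
      have h1 := DFunLike.congr_fun hs 1
      have h2 := DFunLike.congr_fun hs 2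
      have hy : ∀ j : Fin 9, j < 3 → (single (y s) 1 : Fin 9 →₀ ℕ) j = 0 := fun j hj =>
        Finsupp.single_eq_of_ne (ne_of_lt (lt_of_lt_of_le hj (y_big s)))
      simp only [Finsupp.add_apply] at h0 h1 h2
      rw [hy 0 (by decide)] at h0
      rw [hy 1 (by decide)] at h1
      rw [hy 2 (by decide)] at h2
      have h3 := p_sum s
      have h4 := c₃_sum k
      omega
    rw [this]; ring
  · change _ ∈ homogeneousSubmodule (Fin 9) ℂ 3
    rw [mem_homogeneousSubmodule]
    exact isHomogeneous_monomial _ (c₃_degree k)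

theorem W_inf : W ⊓ (homogeneousSubmodule (Fin 9) ℂ 1 * AnnDeg T₀ 2) = ⊥ := by
  rw [eq_bot_iff]
  rintro w ⟨hw, hw'⟩
  have hJ : w ∈ J := mul_le_J hw'
  have hs : ∀ c, coeff c w ≠ 0 → ∀ i : Fin 9, 3 ≤ i → c i = 0 := by
    have hw1 : w ∈ Submodule.span ℂ (Set.range fun k : Fin 10 => monomial (c₃ k) (1 : ℂ)) := hw
    clear hw' hw hJ
    induction hw1 using Submodule.span_induction with
    | mem x hx =>
      obtain ⟨k, rfl⟩ := hx
      intro c hc i hi
      rw [coeff_monomial] at hc
      have : c₃ k = c := by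
        by_contra h
        exact hc (if_neg h)
      rw [← this, c₃_big k i hi]
    | zero => intro c hc; exact absurd (coeff_zero c) hc
    | add x y _ _ hx hy =>
      intro c hc i hi
      by_cases h : coeff c x = 0
      · refine hy c ?_ i hi
        rw [coeff_add, h, zero_add] at hc
        exact hc
      · exact hx c h i hi
    | smul a x _ hx =>
      intro c hc i hi
      refine hx c ?_ i hi
      intro h
      rw [coeff_smul, h, smul_zero] at hc
      exact hc rfl
  rw [J, mem_ideal_span_X_image] at hJ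
  rw [Submodule.mem_bot]
  by_contra hne
  obtain ⟨c, hc⟩ := MvPolynomial.ne_zero_iff.1 hne
  obtain ⟨i, hi, hci⟩ := hJ c (MvPolynomial.mem_support_iff.2 hc)
  exact hci (hs c hc i hi)

theorem concise {f : MvPolynomial (Fin 9) ℂ} (hf : f.IsHomogeneous 1) (hfT : act f T₀ = 0) :
    f = 0 := by
  have hA : f ∈ Ann T₀ := hfT
  rw [mem_Ann] at hA
  have hl1 : f ∈ homogeneousSubmodule (Fin 9) ℂ 1 := hf
  rw [homogeneousSubmodule_one_eq_span_X, Submodule.mem_span_range_iff_exists_fun] at hl1
  obtain ⟨c, rfl⟩ := hl1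
  have hX : ∀ e i, lin T₀ e (X i) = coeff (e + single i 1) T₀ * wt (e + single i 1) := by
    intro e i
    rw [X, lin_monomial, one_mul]
  have key : ∀ (e : Fin 9 →₀ ℕ) (i : Fin 9), coeff (e + single i 1) T₀ = 1 →
      (∀ j, j ≠ i → coeff (e + single j 1) T₀ = 0) → c i = 0 := by
    intro e i h1 h2
    have h3 := hA e
    rw [map_sum, Finset.sum_eq_single i] at h3
    · rw [map_smul, hX, h1, one_mul, smul_eq_mul] at h3
      exact (mul_eq_zero.1 h3).resolve_right (wt_ne _)
    · intro j _ hj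
      rw [map_smul, hX, h2 j hj, zero_mul, smul_zero]
    · intro h
      exact absurd (Finset.mem_univ i) h
  have hc : ∀ i, c i = 0 := by
    intro i
    by_cases hi : 3 ≤ i
    · obtain ⟨s, rfl⟩ := big_eq_y i hi
      refine key (p s) (y s) ?_ ?_
      · rw [add_comm, coeff_T₀_y, if_pos rfl]
      · intro j hj
        by_contra hne
        obtain ⟨t, ht⟩ := exists_of_coeff_ne hne
        have h1 := DFunLike.congr_fun ht (y t)
        rw [Finsupp.add_apply, Finsupp.add_apply, p_big _ _ (y_big t), p_big _ _ (y_big t),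
          Finsupp.single_eq_same] at h1
        have h2 : j = y t := by
          by_contra h
          rw [Finsupp.single_eq_of_ne (Ne.symm h)] at h1
          omega
        rw [h2, add_comm] at ht
        have h3 := p_inj (add_right_cancel ht)
        exact hj (by rw [h2, h3])
    · have : ∃ s : Fin 6, ∀ j, single i 1 + single j 1 = p s ↔ j = i := by
        have hi' : i = 0 ∨ i = 1 ∨ i = 2 := by
          revert i; decide
        have h2 : ∀ i j : Fin 9, (single i 1 + single j 1 : Fin 9 →₀ ℕ) = single i 2 ↔ j = i := by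
          intro i j
          constructor
          · intro h
            by_contra hji
            have := DFunLike.congr_fun h j
            rw [Finsupp.add_apply, Finsupp.single_eq_same, Finsupp.single_eq_of_ne hji,
              Finsupp.single_eq_of_ne hji] at this
            omega
          · rintro rfl
            rw [← Finsupp.single_add]
        rcases hi' with rfl | rfl | rfl
        · exact ⟨0, fun j => by rw [← h2]; rfl⟩
        · exact ⟨1, fun j => by rw [← h2]; rfl⟩
        · exact ⟨2, fun j => by rw [← h2]; rfl⟩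
      obtain ⟨s, hs⟩ := this
      refine key (single (y s) 1 + single i 1) i ?_ ?_
      · rw [add_assoc, coeff_T₀_y, if_pos ((hs i).2 rfl)]
      · intro j hj
        rw [add_assoc, coeff_T₀_y, if_neg (fun h => hj ((hs j).1 h))]
  simp [hc]

theorem homog : T₀.IsHomogeneous 3 := by
  rw [T₀_eq]
  refine IsHomogeneous.sum _ _ _ fun s _ => isHomogeneous_monomial _ ?_
  rw [map_add, Finsupp.degree_single]
  fin_cases s <;> simp [p]

theorem ten_le : 10 ≤ cubicGens T₀ := by
  unfold cubicGens
  have hfin : ∀ k, Module.Finite ℂ (homogeneousSubmodule (Fin 9) ℂ k) := fun k =>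
    Module.Finite.iff_fg.2 (homogeneousSubmodule_fg (Fin 9) ℂ k)
  have := hfin 3
  have h3 : FiniteDimensional ℂ (AnnDeg T₀ 3) :=
    Submodule.finiteDimensional_of_le (inf_le_right : AnnDeg T₀ 3 ≤ homogeneousSubmodule _ _ 3)
  have hW : FiniteDimensional ℂ W := Submodule.finiteDimensional_of_le W_le
  have hM : FiniteDimensional ℂ (homogeneousSubmodule (Fin 9) ℂ 1 * AnnDeg T₀ 2 :
      Submodule ℂ (MvPolynomial (Fin 9) ℂ)) := Submodule.finiteDimensional_of_le (mul_le T₀)
  have h4 := Submodule.finrank_sup_add_finrank_inf_eq W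
    (homogeneousSubmodule (Fin 9) ℂ 1 * AnnDeg T₀ 2)
  rw [W_inf, finrank_bot, finrank_W] at h4
  have h5 : finrank ℂ (W ⊔ (homogeneousSubmodule (Fin 9) ℂ 1 * AnnDeg T₀ 2) :
      Submodule ℂ (MvPolynomial (Fin 9) ℂ)) ≤ finrank ℂ (AnnDeg T₀ 3) :=
    Submodule.finrank_mono (sup_le W_le (mul_le T₀))
  omega

/-- There is a concise cubic form in `m = 9` variables over `ℂ` whose apolar ideal has at least
`10 ≥ m` minimal cubic generators. -/
theorem result : ∃ m : ℕ, 1 ≤ m ∧ ∃ T : MvPolynomial (Fin m) ℂ, T.IsHomogeneous 3 ∧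
    (∀ f : MvPolynomial (Fin m) ℂ, f.IsHomogeneous 1 → act f T = 0 → f = 0) ∧
    m + 1 ≤ cubicGens T :=
  ⟨9, by norm_num, T₀, homog, fun _ h1 h2 => concise h1 h2, ten_le⟩

end Pool.Agent.Results.MP_1eaf4f_ag.NineVars
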